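import Pool.Agent.TH426.Pw.LogMain

/-!
# `π`, `log α_j` and `α_j ^ β_(j,i)` for almost all numbers `α_j = x_j + y_j q_j`, `q_j` rational

Let `n ≥ 1`, `x_j`, `y_j > 0` real numbers, `a_j < b_j` with `x_j + y_j a_j > 0`, and `β_(j,i)` real
numbers (`i ≤ k`) such that for every `j` no combination `m_1 β_(j,1) + … + m_k β_(j,k)` with integers
`|m_i| ≤ d`, not all zero, is an integer (for all `d`, if `1, β_(j,1), …, β_(j,k)` are linearly independent
over `ℚ`). Let `A ≥ 0` and `δ > 2 - 2 / ((d + 1) ^ ((k + 1) n + 1) + 1)`. There are `B` and `C` such that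
for all `T ≥ 1`, for all but at most `C T ^ (2 (n - 1) + δ)` of the `n`-tuples of rationals `q_j` in
`[a_j, b_j]` with denominators at most `T`, the numbers `π`, `log α_j`, `α_j ^ β_(j,i)`, where
`α_j = x_j + y_j q_j`, satisfy `|P| > T ^ (-B)` for every nonzero integer polynomial `P` of degree at most
`d` in each variable and with coefficients at most `T ^ A`.
-/

set_option autoImplicit false

namespace Pool.Agent.Results.MP_23715a_nt.AlmostAllRationals

/-- The number `π` and, for `α_j = x_j + y_j q_j`, the numbers `log α_j` and `α_j ^ β_(j,i)`. -/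
noncomputable def values {n k : ℕ} (x y : Fin n → ℝ) (β : Fin n → Fin k → ℝ) (q : Fin n → ℚ)
    (s : Option (Fin n × Option (Fin k))) : ℝ :=
  match s with
  | none => Real.pi
  | some (j, none) => Real.log (x j + y j * q j)
  | some (j, some i) => (x j + y j * q j) ^ β j i

/-- The `n`-tuples `q` of rationals in the `[a_j, b_j]` with denominators at most `T` for which there is a nonzero
polynomial with integer coefficients, of degree at most `d` in each variable, with coefficients of absolute value at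
most `T ^ A`, whose value at the point `values` has absolute value at most `T ^ (-B)`. -/
def Exceptional {n k : ℕ} (d : ℕ) (x y : Fin n → ℝ) (β : Fin n → Fin k → ℝ) (a b : Fin n → ℝ) (A B T : ℝ) :
    Set (Fin n → ℚ) :=
  {q | (∀ j, a j ≤ q j ∧ (q j : ℝ) ≤ b j ∧ ((q j).den : ℝ) ≤ T) ∧
    ∃ P : MvPolynomial (Option (Fin n × Option (Fin k))) ℤ, P ≠ 0 ∧ (∀ s, P.degreeOf s ≤ d) ∧
      (∀ m, |((P.coeff m : ℤ) : ℝ)| ≤ T ^ A) ∧
      |MvPolynomial.aeval (values x y β q) P| ≤ T ^ (-B)}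

/-- There are few exceptional tuples, for all admissible intervals, all `A` and all `δ`. -/
def AlmostAll {n k : ℕ} (d : ℕ) (x y : Fin n → ℝ) (β : Fin n → Fin k → ℝ) : Prop :=
  ∀ (a b : Fin n → ℝ), (∀ j, 0 < x j + y j * a j) → (∀ j, a j < b j) → ∀ A δ : ℝ, 0 ≤ A →
    2 - 2 / (((d : ℝ) + 1) ^ ((k + 1) * n + 1) + 1) < δ →
    ∃ B C : ℝ, ∀ T : ℝ, 1 ≤ T → (Exceptional d x y β a b A B T).Finite ∧
      ((Exceptional d x y β a b A B T).ncard : ℝ) ≤ C * T ^ (2 * ((n : ℝ) - 1) + δ)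

theorem values_eq {n k : ℕ} (x y : Fin n → ℝ) (β : Fin n → Fin k → ℝ) (q : Fin n → ℚ) :
    values x y β q = Pool.Agent.TH426.Pw.valq x y β q := by
  funext s
  rcases s with _ | ⟨j, _ | i⟩ <;> rfl

theorem exceptional_eq {n k : ℕ} (d : ℕ) (x y : Fin n → ℝ) (β : Fin n → Fin k → ℝ) (a b : Fin n → ℝ) (A B T : ℝ) :
    Exceptional d x y β a b A B T = Pool.Agent.TH426.Pw.ExcQ d x y β a b A B T := by
  unfold Exceptional Pool.Agent.TH426.Pw.ExcQ
  simp only [values_eq]

/-- integer relations -/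
theorem of_indep {k : ℕ} (β : Fin k → ℝ)
    (hβ : LinearIndependent ℚ (fun i : Option (Fin k) => i.elim (1 : ℝ) β)) (m : Fin k → ℤ) (z : ℤ)
    (h : ∑ i, (m i : ℝ) * β i = z) : m = 0 := by
  have h1 := Fintype.linearIndependent_iff.1 hβ (fun i => i.elim (-(z : ℚ)) fun i => (m i : ℚ)) (by
    rw [Fintype.sum_option]
    simp only [Option.elim_none, Option.elim_some, Rat.smul_def]
    push_cast
    rw [h]
    ring)
  funext i
  have h2 := h1 (some i)
  simp only [Option.elim_some] at h2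
  exact_mod_cast h2

/-- The general theorem, and the case of numbers `1, β_(j,1), …, β_(j,k)` linearly independent over `ℚ`. -/
theorem result :
    (∀ (n k d : ℕ) (x y : Fin n → ℝ) (β : Fin n → Fin k → ℝ), 1 ≤ n → (∀ j, 0 < y j) →
      (∀ j, ∀ (m : Fin k → ℤ) (z : ℤ), (∀ i, |m i| ≤ d) → ∑ i, (m i : ℝ) * β j i = z → m = 0) →
      AlmostAll d x y β) ∧
    (∀ (n k : ℕ) (x y : Fin n → ℝ) (β : Fin n → Fin k → ℝ), 1 ≤ n → (∀ j, 0 < y j) →
      (∀ j, LinearIndependent ℚ (fun i : Option (Fin k) => i.elim (1 : ℝ) (β j))) →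
      ∀ d : ℕ, AlmostAll d x y β) := by
  have hA : ∀ (n k d : ℕ) (x y : Fin n → ℝ) (β : Fin n → Fin k → ℝ), 1 ≤ n → (∀ j, 0 < y j) →
      (∀ j, ∀ (m : Fin k → ℤ) (z : ℤ), (∀ i, |m i| ≤ d) → ∑ i, (m i : ℝ) * β j i = z → m = 0) →
      AlmostAll d x y β := by
    intro n k d x y β hn hy hβ a b ha hab A δ hA hδ
    simp only [exceptional_eq]
    exact Pool.Agent.TH426.Pw.mainQ k n d hn x y hy β hβ a b ha hab A δ hA hδ
  refine ⟨hA, ?_⟩
  intro n k x y β hn hy hβ d
  exact hA n k d x y β hn hy fun j m z _ h => of_indep (β j) (hβ j) m z h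

end Pool.Agent.Results.MP_23715a_nt.AlmostAllRationals
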